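import Pool.Agent.Y501.SY.Stm

/-!
An almost complex structure is tamed at a point by an exact form.
-/

set_option autoImplicit false

open Set Filter Topology MeasureTheory
open scoped Manifold ContDiff

noncomputable section

namespace Pool.Agent.Y363.SY

open Pool.Agent.Y501.SY

/-- The linear algebra. -/
theorem lin_pos {d : ℕ} (J' : E d →L[ℝ] E d) (hJ : ∀ u, J' (J' u) = -u) (u : E d) (hu : u ≠ 0) :
    0 < ∑ j, ∑ k, J' (EuclideanSpace.single j (1 : ℝ)) k *
      (u j * J' u k - J' u j * u k) := by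
  have hexp : ∀ (w : E d) (k : Fin d),
      ∑ j, J' (EuclideanSpace.single j (1 : ℝ)) k * w j = J' w k := by
    intro w k
    have h1 : w = ∑ j, w j • (EuclideanSpace.single j (1 : ℝ) : E d) := by
      ext i
      simp [Finset.sum_apply, Pi.single_apply]
    conv_rhs => rw [h1, map_sum]
    simp only [map_smul]
    rw [WithLp.ofLp_sum, Finset.sum_apply]
    refine Finset.sum_congr rfl fun j _ => ?_
    rw [WithLp.ofLp_smul, Pi.smul_apply, smul_eq_mul, mul_comm]
  have h2 : ∑ j, ∑ k, J' (EuclideanSpace.single j (1 : ℝ)) k *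
      (u j * J' u k - J' u j * u k) = ∑ k, (J' u k) ^ 2 + ∑ k, (u k) ^ 2 := by
    rw [Finset.sum_comm, ← Finset.sum_add_distrib]
    refine Finset.sum_congr rfl fun k _ => ?_
    have e1 : ∀ j, J' (EuclideanSpace.single j (1 : ℝ)) k * (u j * J' u k - J' u j * u k) =
        (J' (EuclideanSpace.single j (1 : ℝ)) k * u j) * J' u k -
          (J' (EuclideanSpace.single j (1 : ℝ)) k * J' u j) * u k := fun j => by ring
    rw [Finset.sum_congr rfl fun j _ => e1 j, Finset.sum_sub_distrib, ← Finset.sum_mul,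
      ← Finset.sum_mul, hexp u k, hexp (J' u) k, hJ]
    have e2 : (-u) k = - u k := rfl
    rw [e2]
    ring
  rw [h2]
  have h3 : 0 < ∑ k, (u k) ^ 2 := by
    have h4 : ∃ k, u k ≠ 0 := by
      by_contra h
      push Not at h
      apply hu
      ext k
      exact h k
    obtain ⟨k, hk⟩ := h4
    exact Finset.sum_pos' (fun k _ => sq_nonneg _) ⟨k, Finset.mem_univ k, by positivity⟩
  have h5 : 0 ≤ ∑ k, (J' u k) ^ 2 := Finset.sum_nonneg fun k _ => sq_nonneg _
  linarith

theorem t_LOCAL : S_LOCAL := by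
  intro d X _ _ _ _ J hJ z
  let c := chartAt (E d) z
  have hz : z ∈ c.source := mem_chart_source (E d) z
  have hcd : c.MDifferentiable (𝓡 d) (𝓡 d) := mdifferentiable_chart (I := 𝓡 d) z
  let A : TangentSpace (𝓡 d) z ≃L[ℝ] E d := hcd.mfderiv hz
  have hA : ∀ v, A v = mfderiv (𝓡 d) (𝓡 d) c z v := fun v => rfl
  let J' : E d →L[ℝ] E d := (A : TangentSpace (𝓡 d) z →L[ℝ] E d).comp
    ((J z).comp (A.symm : E d →L[ℝ] TangentSpace (𝓡 d) z))
  have hJ'v : ∀ u, J' u = A (J z (A.symm u)) := fun u => rfl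
  have hJA : ∀ v, J' (A v) = A (J z v) := by
    intro v
    rw [hJ'v, A.symm_apply_apply]
  have hJJ : ∀ u, J' (J' u) = -u := by
    intro u
    rw [hJ'v u, hJA, hJ.sq, map_neg, A.apply_symm_apply]
  obtain ⟨b⟩ : Nonempty (SmoothBumpFunction (𝓡 d) z) := inferInstance
  let F : X → E d := fun x => b x • c x
  have hF : ContMDiff (𝓡 d) 𝓘(ℝ, E d) ∞ F := b.contMDiff_smul (contMDiffOn_chart (I := 𝓡 d))
  have hFc : F =ᶠ[𝓝 z] c := by
    filter_upwards [b.eventuallyEq_one] with x hx
    change b x • c x = c x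
    rw [hx]
    exact one_smul ℝ (c x)
  let g : Fin d → X → ℝ := fun j x => F x j
  have hg : ∀ j, SmoothFun (d := d) (g j) := by
    intro j
    exact ((EuclideanSpace.proj (𝕜 := ℝ) j : E d →L[ℝ] ℝ).contDiff.contMDiff).comp hF
  have hcdz : MDifferentiableAt (𝓡 d) 𝓘(ℝ, E d) c z := hcd.mdifferentiableAt hz
  have hdg : ∀ j (v : TangentSpace (𝓡 d) z), dd (g j) z v = (A v) j := by
    intro j v
    have e1 : g j =ᶠ[𝓝 z] (EuclideanSpace.proj (𝕜 := ℝ) j : E d →L[ℝ] ℝ) ∘ c := by
      filter_upwards [hFc] with x hx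
      change F x j = c x j
      rw [hx]
    unfold dd
    rw [e1.mfderiv_eq, mfderiv_comp z
      ((EuclideanSpace.proj (𝕜 := ℝ) j : E d →L[ℝ] ℝ).contDiff.contMDiff.mdifferentiableAt
        (n := 1) one_ne_zero) hcdz,
      mfderiv_eq_fderiv, ContinuousLinearMap.fderiv]
    rfl
  refine ⟨g, fun j k => J' (EuclideanSpace.single j (1 : ℝ)) k, hg, ?_⟩
  intro v hv
  have hAv : A v ≠ 0 := by
    intro h
    apply hv
    have := A.injective (h.trans (map_zero A).symm)
    exact this
  have h1 := lin_pos J' hJJ (A v) hAv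
  have h2 : (∑ j, ∑ k, J' (EuclideanSpace.single j (1 : ℝ)) k •
      dfdg (d := d) (g j) (g k)) z ![v, J z v] =
      ∑ j, ∑ k, J' (EuclideanSpace.single j (1 : ℝ)) k *
      ((A v) j * J' (A v) k - J' (A v) j * (A v) k) := by
    simp only [Finset.sum_apply, Pi.smul_apply, ContinuousAlternatingMap.sum_apply,
      ContinuousAlternatingMap.smul_apply, smul_eq_mul]
    refine Finset.sum_congr rfl fun j _ => Finset.sum_congr rfl fun k _ => ?_
    have e3 : dfdg (d := d) (g j) (g k) z ![v, J z v] =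
        dd (g j) z v * dd (g k) z (J z v) - dd (g j) z (J z v) * dd (g k) z v :=
      wedge_apply (V := E d) (dd (g j) z) (dd (g k) z) ![v, J z v]
    rw [e3, hdg, hdg, hdg, hdg, hJA]
  rw [h2]
  exact h1

end Pool.Agent.Y363.SY
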